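import Mathlib

set_option autoImplicit false

/-!
MP_ad5e4d_al, piece FP (captain: helper23): facts about finite presentability.
-/

namespace IM

open FreeGroup

theorem ker_fng {Q G : Type*} [Group Q] [Group G] [Group.FG Q] [Group.IsFinitelyPresented G]
    (π : Q →* G) (hπ : Function.Surjective π) : π.ker.IsFinitelyNormallyGenerated := by
  obtain ⟨n, φ, hφ, S, hSfin, hS⟩ := (inferInstance : Group.IsFinitelyPresented G).out
  obtain ⟨T, hT, hTfin⟩ := Group.fg_iff.1 (inferInstance : Group.FG Q)
  -- lift `φ` through `π`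
  choose q hq using fun i : Fin n => hπ (φ (FreeGroup.of i))
  set ψ : FreeGroup (Fin n) →* Q := FreeGroup.lift q with hψdef
  have hψ : π.comp ψ = φ := by
    ext i
    simp [hψdef, hq]
  have hψ' : ∀ w, π (ψ w) = φ w := fun w => by rw [← hψ]; rfl
  choose w hw using fun t : Q => hφ (π t)
  set U : Set Q := ψ '' S ∪ (fun t => t * (ψ (w t))⁻¹) '' T with hU
  have hSker : ∀ s ∈ S, φ s = 1 := by
    intro s hs
    have : s ∈ φ.ker := by rw [← hS]; exact Subgroup.subset_normalClosure hs
    exact this
  have hUker : U ⊆ π.ker := by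
    rintro x (⟨s, hs, rfl⟩ | ⟨t, _, rfl⟩)
    · change π (ψ s) = 1
      rw [hψ', hSker s hs]
    · change π (t * (ψ (w t))⁻¹) = 1
      rw [_root_.map_mul, _root_.map_inv, hψ', hw, mul_inv_cancel]
  refine ⟨U, (hSfin.image _).union (hTfin.image _), le_antisymm ?_ ?_⟩
  · exact Subgroup.normalClosure_le_normal hUker
  · set N : Subgroup Q := Subgroup.normalClosure U with hN
    -- `ψ` maps `ker φ` into `N`
    have h1 : φ.ker ≤ N.comap ψ := by
      rw [← hS]
      apply Subgroup.normalClosure_le_normal
      intro s hs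
      exact Subgroup.subset_normalClosure (Or.inl ⟨s, hs, rfl⟩)
    -- every element of `Q` is congruent to some `ψ v` modulo `N`
    have h2 : ∀ x : Q, ∃ v, QuotientGroup.mk' N x = QuotientGroup.mk' N (ψ v) := by
      have h3 : (((QuotientGroup.mk' N).comp ψ).range).comap (QuotientGroup.mk' N) = ⊤ := by
        rw [eq_top_iff, ← hT, Subgroup.closure_le]
        intro t ht
        have h4 : t * (ψ (w t))⁻¹ ∈ N := Subgroup.subset_normalClosure (Or.inr ⟨t, ht, rfl⟩)
        refine ⟨w t, ?_⟩
        have h5 : QuotientGroup.mk' N (t * (ψ (w t))⁻¹) = 1 := by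
          rw [← MonoidHom.mem_ker, QuotientGroup.ker_mk']; exact h4
        rw [_root_.map_mul, _root_.map_inv, mul_inv_eq_one] at h5
        exact h5.symm
      intro x
      have hx : x ∈ (((QuotientGroup.mk' N).comp ψ).range).comap (QuotientGroup.mk' N) := by
        rw [h3]; trivial
      obtain ⟨v, hv⟩ := hx
      exact ⟨v, hv.symm⟩
    intro x hx
    obtain ⟨v, hv⟩ := h2 x
    have hxv : x * (ψ v)⁻¹ ∈ N := by
      rw [← QuotientGroup.ker_mk' N, MonoidHom.mem_ker, _root_.map_mul, _root_.map_inv, hv, mul_inv_cancel]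
    have hNker : N ≤ π.ker := Subgroup.normalClosure_le_normal hUker
    have hv1 : v ∈ φ.ker := by
      have h6 := hNker hxv
      rw [MonoidHom.mem_ker] at h6 hx ⊢
      rw [_root_.map_mul, _root_.map_inv, hx, one_mul, inv_eq_one, hψ'] at h6
      exact h6
    have h7 : ψ v ∈ N := h1 hv1
    have := N.mul_mem hxv h7
    rwa [inv_mul_cancel_right] at this

theorem fp_of_finiteIndex {G : Type*} [Group G] [Group.FG G] (H : Subgroup G) [H.FiniteIndex]
    (hH : Group.IsFinitelyPresented H) : Group.IsFinitelyPresented G := by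
  obtain ⟨α, hα, φ₀, hφ₀⟩ :=
    Group.fg_iff_exists_freeGroup_hom_surjective_finite.1 (inferInstance : Group.FG G)
  obtain ⟨n, ⟨e⟩⟩ := Finite.exists_equiv_fin α
  set φ : FreeGroup (Fin n) →* G := φ₀.comp (FreeGroup.freeGroupCongr e.symm).toMonoidHom with hφd
  have hφ : Function.Surjective φ := hφ₀.comp (FreeGroup.freeGroupCongr e.symm).surjective
  refine ⟨n, φ, hφ, ?_⟩
  set K : Subgroup (FreeGroup (Fin n)) := H.comap φ with hK
  have hKfi : K.FiniteIndex := by
    constructor
    rw [hK, Subgroup.index_comap_of_surjective H hφ]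
    exact Subgroup.FiniteIndex.index_ne_zero
  have hKfg : Group.FG K := inferInstance
  set π : K →* H := φ.subgroupComap H with hπd
  have hπ : Function.Surjective π := by
    rintro ⟨h, hh⟩
    obtain ⟨w, hw⟩ := hφ h
    refine ⟨⟨w, ?_⟩, ?_⟩
    · change φ w ∈ H
      rw [hw]; exact hh
    · apply Subtype.ext
      exact hw
  obtain ⟨S, hSfin, hS⟩ := ker_fng π hπ
  refine ⟨(fun x : K => (x : FreeGroup (Fin n))) '' S, hSfin.image _, le_antisymm ?_ ?_⟩
  · apply Subgroup.normalClosure_le_normal
    rintro _ ⟨s, hs, rfl⟩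
    have h1 : s ∈ π.ker := by rw [← hS]; exact Subgroup.subset_normalClosure hs
    have h2 : π s = 1 := h1
    have h3 : ((π s : H) : G) = φ (s : FreeGroup (Fin n)) := rfl
    change φ (s : FreeGroup (Fin n)) = 1
    rw [← h3, h2]; rfl
  · intro x hx
    have hxK : x ∈ K := by
      change φ x ∈ H
      rw [MonoidHom.mem_ker.1 hx]; exact H.one_mem
    have h1 : (⟨x, hxK⟩ : K) ∈ π.ker := by
      rw [MonoidHom.mem_ker]
      apply Subtype.ext
      exact hx
    rw [← hS] at h1
    have h2 : Subgroup.normalClosure S ≤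
        (Subgroup.normalClosure ((fun x : K => (x : FreeGroup (Fin n))) '' S)).comap K.subtype := by
      apply Subgroup.normalClosure_le_normal
      intro s hs
      exact Subgroup.subset_normalClosure ⟨s, hs, rfl⟩
    exact h2 h1

namespace FPAux

theorem finite_of_fg_freeGroup {X : Type*} (h : Group.FG (FreeGroup X)) : Finite X := by
  classical
  obtain ⟨S, hS, hSfin⟩ := Group.fg_iff.1 h
  -- letters occurring in the generators
  set Y : Set X := ⋃ s ∈ S, {x | x ∈ (s.toWord.map Prod.fst)} with hY
  have hYfin : Y.Finite := by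
    apply hSfin.biUnion
    intro s _
    exact (s.toWord.map Prod.fst).finite_toSet
  have hall : ∀ x, x ∈ Y := by
    intro x
    by_contra hx
    set f : FreeGroup X →* Multiplicative ℤ :=
      FreeGroup.lift (fun y => if y = x then Multiplicative.ofAdd 1 else 1) with hf
    have h1 : ∀ s ∈ S, f s = 1 := by
      intro s hs
      have hxs : x ∉ s.toWord.map Prod.fst := by
        intro hh
        exact hx (Set.mem_biUnion hs hh)
      rw [← FreeGroup.mk_toWord (x := s), hf, FreeGroup.lift_mk]
      apply List.prod_eq_one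
      intro z hz
      rw [List.mem_map] at hz
      obtain ⟨p, hp, rfl⟩ := hz
      have hpx : p.1 ≠ x := by
        rintro rfl
        exact hxs (List.mem_map_of_mem hp)
      simp [hpx]
    have h2 : f.ker = ⊤ := by
      rw [eq_top_iff, ← hS, Subgroup.closure_le]
      exact fun s hs => h1 s hs
    have h3 : f (FreeGroup.of x) = 1 := by
      have : FreeGroup.of x ∈ f.ker := by rw [h2]; trivial
      exact this
    rw [hf, FreeGroup.lift_apply_of] at h3
    simp at h3
  exact Set.finite_univ_iff.1 (hYfin.subset fun x _ => hall x)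

end FPAux

theorem fp_of_fg_subgroup_free {A : Type*} (J : Subgroup (FreeGroup A)) (hJ : J.FG) :
    Group.IsFinitelyPresented J := by
  have hfree : IsFreeGroup J := inferInstance
  have hfg : Group.FG J := (Group.fg_iff_subgroup_fg J).2 hJ
  have e : J ≃* FreeGroup (IsFreeGroup.Generators J) := IsFreeGroup.toFreeGroup J
  have h1 : Group.FG (FreeGroup (IsFreeGroup.Generators J)) :=
    Group.fg_of_surjective (f := e.toMonoidHom) e.surjective
  have h2 : Finite (IsFreeGroup.Generators J) := FPAux.finite_of_fg_freeGroup h1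
  exact Group.IsFinitelyPresented.equiv e.symm

end IM
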